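import Pool.Agent.Q124.MS.SepA
import Pool.Agent.Y425.BF6.Fin
import Pool.Agent.W420.BF.Fin
import Pool.Agent.W420.BF.Join
import Pool.Agent.W461.BF.Perm
import Pool.Agent.W119.BF.Leaf
import Pool.Agent.W887.BF.Three
import Pool.Agent.W351.BF.Red

set_option autoImplicit false

/-!
# Critical minors for quadruple covers by six even subgraphs (MP_40718a_co)

Every bridgeless graph without a quadruple cover by six even subgraphs has a minor of the same kind
which is simple of girth at least five, 3-connected and internally 4-connected (for vertex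
separations and for edge cuts), has no nowhere-zero 4-flow, and has treewidth at least five, carving
width at least six and cutwidth at least seven, all at the same time.

In particular Jaeger's conjecture holds for all graphs glued along edge cuts with at most three
edges and along at most three vertices from pieces of treewidth at most four, of carving width at
most five, of cutwidth at most six, or with a nowhere-zero 4-flow.

The graphs are not supposed to be cubic: the minors are obtained by deleting and contracting edges.
A graph is given by the ends `s e`, `t e` of its edges `e`; loops and parallel edges are allowed.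
Deleted and contracted edges are kept as loops, and the set of vertices is kept: the statements on
minors do not count vertices all of whose edges are loops.
-/

namespace Pool.Agent.Results.MP_40718a_co.CriticalMinors

open Finset

/-- the edge `e` joins `x` and `y` -/
def Joins {V E : Type} (s t : E → V) (e : E) (x y : V) : Prop :=
  (s e = x ∧ t e = y) ∨ (s e = y ∧ t e = x)

/-- `x` and `y` are different and joined by an edge -/
def Adj {V E : Type} (s t : E → V) (x y : V) : Prop := x ≠ y ∧ ∃ e, Joins s t e x y

/-- `x` has a neighbour -/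
def Proper {V E : Type} (s t : E → V) (x : V) : Prop := ∃ y, Adj s t x y

/-- the edges with exactly one end in `Z` -/
def cut {V E : Type} [DecidableEq V] [Fintype E] (s t : E → V) (Z : Finset V) : Finset E :=
  univ.filter (fun e => ¬ (s e ∈ Z ↔ t e ∈ Z))

/-- there is no cut edge: no set of vertices is left by exactly one edge -/
def NoCutEdge {V E : Type} [DecidableEq V] [Fintype E] (s t : E → V) : Prop :=
  ∀ Z : Finset V, (cut s t Z).card ≠ 1

/-- the degree of `v` in the set of edges `C`, where a loop counts twice -/
def deg {V E : Type} [DecidableEq V] (s t : E → V) (C : Finset E) (v : V) : ℕ :=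
  ∑ e ∈ C, ((if s e = v then 1 else 0) + (if t e = v then 1 else 0))

/-- a quadruple cover by six even subgraphs -/
def QuadrupleCover {V E : Type} [DecidableEq V] [DecidableEq E] (s t : E → V) : Prop :=
  ∃ C : Fin 6 → Finset E, (∀ i v, Even (deg s t (C i) v)) ∧
    ∀ e, (univ.filter (fun i => e ∈ C i)).card = 4

/-- a nowhere-zero 4-flow: the set of all edges is the union of two even subgraphs -/
def FourFlow {V E : Type} [DecidableEq V] [Fintype E] [DecidableEq E] (s t : E → V) : Prop :=
  ∃ C₁ C₂ : Finset E, (∀ v, Even (deg s t C₁ v)) ∧ (∀ v, Even (deg s t C₂ v)) ∧ C₁ ∪ C₂ = univ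

/-- minors: edges are deleted or contracted, one by one, and kept as loops (when `e` is contracted
the end `d e` is replaced by the end `c e` everywhere) -/
inductive IsMinor {V E : Type} [DecidableEq V] [DecidableEq E] (s t : E → V) :
    (E → V) → (E → V) → Prop
  | refl : IsMinor s t s t
  | delete (c d : E → V) (e : E) : IsMinor s t c d →
      IsMinor s t c (fun x => if x = e then c x else d x)
  | contract (c d : E → V) (e : E) : IsMinor s t c d →
      IsMinor s t (fun x => if c x = d e then c e else c x) (fun x => if d x = d e then c e else d x)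

/-- `T` is a tree with a bag for each node: every edge has both ends in a bag, and the bags with a
given vertex form a subtree -/
def IsTreeDecomposition {V E ι : Type} (s t : E → V) (T : SimpleGraph ι)
    (bag : ι → Finset V) : Prop :=
  T.IsTree ∧ (∀ e, ∃ i, s e ∈ bag i ∧ t e ∈ bag i) ∧
    ∀ (i j : ι) (p : T.Walk i j), p.IsPath → ∀ k ∈ p.support, ∀ v, v ∈ bag i → v ∈ bag j →
      v ∈ bag k

/-- binary trees with leaves labelled by `V` -/
inductive Tr (V : Type) : Type
  | leaf (v : V) : Tr V
  | node (l r : Tr V) : Tr V

/-- the labels of the leaves -/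
def Tr.labels {V : Type} : Tr V → Set V
  | .leaf v => {v}
  | .node l r => l.labels ∪ r.labels

/-- the labels of different leaves are different -/
def Tr.Nodup {V : Type} : Tr V → Prop
  | .leaf _ => True
  | .node l r => Disjoint l.labels r.labels ∧ l.Nodup ∧ r.Nodup

/-- for each subtree at most `w` edges leave the set of the labels of its leaves -/
def Tr.Width {V E : Type} (s t : E → V) (w : ℕ) : Tr V → Prop
  | .leaf v => {e | ¬ (s e ∈ ({v} : Set V) ↔ t e ∈ ({v} : Set V))}.ncard ≤ w
  | .node l r => {e | ¬ (s e ∈ l.labels ∪ r.labels ↔ t e ∈ l.labels ∪ r.labels)}.ncard ≤ w ∧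
      l.Width s t w ∧ r.Width s t w

/-- `X`, `Y`, `S` is a partition of the set of vertices and no edge joins `X` and `Y` -/
structure Separation {V E : Type} (s t : E → V) (X Y S : Finset V) : Prop where
  xy : Disjoint X Y
  xs : Disjoint X S
  ys : Disjoint Y S
  all : ∀ v, v ∈ X ∨ v ∈ Y ∨ v ∈ S
  sep : ∀ e x y, x ∈ X → y ∈ Y → ¬ Joins s t e x y

/-- the properties of the critical minors -/
structure Critical {V E : Type} [Fintype V] [DecidableEq V] [Fintype E] [DecidableEq E]
    (s t : E → V) : Prop where
  /-- there is no cut edge -/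
  noCutEdge : NoCutEdge s t
  /-- there is no quadruple cover by six even subgraphs -/
  noCover : ¬ QuadrupleCover s t
  /-- there is no nowhere-zero 4-flow -/
  noFlow : ¬ FourFlow s t
  /-- no parallel edges, apart from loops -/
  noPar : ∀ e e' x y, x ≠ y → Joins s t e x y → Joins s t e' x y → e = e'
  /-- no triangles -/
  noTri : ∀ x y z, Adj s t x y → Adj s t y z → ¬ Adj s t z x
  /-- no quadrilaterals -/
  noQuad : ∀ x y z w, x ≠ z → y ≠ w → Adj s t x y → Adj s t y z → Adj s t z w → ¬ Adj s t w x
  /-- edge cuts have at least three edges -/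
  cut3 : ∀ (Z : Finset V) (x y : V), x ∈ Z → y ∉ Z → Proper s t x → Proper s t y →
    3 ≤ (cut s t Z).card
  /-- edge cuts with at least two vertices on each side have at least four edges -/
  cut4 : ∀ (Z : Finset V) (x x' y y' : V), x ∈ Z → x' ∈ Z → x ≠ x' → y ∉ Z → y' ∉ Z → y ≠ y' →
    Proper s t x → Proper s t x' → Proper s t y → Proper s t y' → 4 ≤ (cut s t Z).card
  /-- at least three vertices are needed to separate two vertices -/
  sep3 : ∀ (X Y S : Finset V), Separation s t X Y S → ∀ x y, x ∈ X → y ∈ Y → Proper s t x →
    Proper s t y → 3 ≤ S.card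
  /-- at least four vertices are needed to separate two vertices from two vertices -/
  sep4 : ∀ (X Y S : Finset V), Separation s t X Y S → ∀ x x' y y', x ∈ X → x' ∈ X → x ≠ x' →
    y ∈ Y → y' ∈ Y → y ≠ y' → Proper s t x → Proper s t x' → Proper s t y → Proper s t y' →
    4 ≤ S.card
  /-- the treewidth is at least five: each tree decomposition has a bag with six vertices -/
  treewidth : ∀ (ι : Type) [Fintype ι] (T : SimpleGraph ι) (bag : ι → Finset V),
    IsTreeDecomposition s t T bag → ∃ i, 6 ≤ (bag i).card
  /-- the carving width is at least six -/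
  carving : ∀ T : Tr V, T.labels = Set.univ → T.Nodup → ¬ T.Width s t 5
  /-- the cutwidth is at least seven: in each ordering of the vertices some initial segment is left
  by seven edges -/
  cutwidth : ∀ f : V → ℕ, Function.Injective f →
    ∃ n, 7 ≤ (univ.filter fun e => ¬ (f (s e) < n ↔ f (t e) < n)).card

/-! ### Translations -/

section
variable {V E : Type} [Fintype V] [DecidableEq V] [Fintype E] [DecidableEq E] {s t : E → V}

theorem proper_iff {x : V} : Proper s t x ↔ TH676.A.Nis s t x := by
  constructor
  · rintro ⟨y, hne, e, h⟩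
    rcases h with ⟨h1, h2⟩ | ⟨h1, h2⟩
    · exact ⟨e, by rw [h1, h2]; exact hne, Or.inl h1⟩
    · exact ⟨e, by rw [h1, h2]; exact hne.symm, Or.inr h2⟩
  · rintro ⟨e, hne, h⟩
    rcases h with h | h
    · exact ⟨t e, fun h1 => hne (h.trans h1), e, Or.inl ⟨h, rfl⟩⟩
    · exact ⟨s e, fun h1 => hne (h1.symm.trans h.symm), e, Or.inr ⟨rfl, h⟩⟩

theorem br_iff : TH676.A.Br s t ∅ ∅ ↔ NoCutEdge s t := by
  constructor
  · intro h Y
    have := h Y (disjoint_empty_right _)
    rw [sdiff_empty] at this
    exact this
  · intro h Y _
    rw [sdiff_empty]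
    exact h Y

theorem code : ∀ S : Finset (Fin 6), S.card = 4 → ∃ n : Fin 32, TH497.BF.inA n.val = true ∧
    ∀ i : Fin 6, (TH497.BF.coord i.val n.val = true ↔ i ∈ S) := by
  decide +kernel

theorem zero_code : ∀ n : Fin 32, (∀ i : Fin 6, TH497.BF.coord i.val n.val = false) →
    n.val = 0 := by decide +kernel

theorem flow_of_cover (h : QuadrupleCover s t) :
    TH676.A.FlowOn TH497.BF.Ag s t ∅ ∅ := by
  obtain ⟨C, h1, h2⟩ := h
  choose n hn using fun e => code _ (h2 e)
  refine ⟨fun e => ⟨(n e).val, (n e).isLt⟩, fun v => ?_, fun e he => absurd he (notMem_empty _),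
    fun e _ _ => (hn e).1⟩
  have key : ∀ i : Fin 6, TH497.BF.co i.val (TH676.A.bd s t
      (fun e => (⟨(n e).val, (n e).isLt⟩ : TH497.BF.G)) v) = 0 := by
    intro i
    unfold TH676.A.bd
    rw [map_sum]
    have h3 := h1 i v
    rw [← ZMod.natCast_eq_zero_iff_even] at h3
    unfold deg at h3
    rw [Nat.cast_sum] at h3
    refine Eq.trans ?_ h3
    rw [← sum_subset (subset_univ (C i))]
    · refine sum_congr rfl fun e he => ?_
      have h4 : TH497.BF.co i.val (⟨(n e).val, (n e).isLt⟩ : TH497.BF.G) = 1 := by
        change (if TH497.BF.coord i.val (n e).val = true then (1 : ZMod 2) else 0) = 1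
        rw [if_pos (((hn e).2 i).mpr (mem_filter.mpr ⟨mem_univ _, he⟩))]
      rw [map_add, apply_ite (TH497.BF.co i.val), apply_ite (TH497.BF.co i.val), map_zero, h4]
      push_cast
      rfl
    · intro e _ he
      have h4 : TH497.BF.co i.val (⟨(n e).val, (n e).isLt⟩ : TH497.BF.G) = 0 := by
        change (if TH497.BF.coord i.val (n e).val = true then (1 : ZMod 2) else 0) = 0
        rw [if_neg]
        intro h5
        exact he (mem_filter.mp (((hn e).2 i).mp h5)).2
      rw [map_add, apply_ite (TH497.BF.co i.val), apply_ite (TH497.BF.co i.val), map_zero, h4]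
      simp
  set g := TH676.A.bd s t (fun e => (⟨(n e).val, (n e).isLt⟩ : TH497.BF.G)) v with hg
  have h5 := zero_code ⟨g.v, g.h⟩ (fun i => by
    have h6 := key i
    by_contra hc
    have h7 : TH497.BF.coord i.val g.v = true := by
      simpa using hc
    have h8 : TH497.BF.co i.val g = 1 := by
      change (if TH497.BF.coord i.val g.v = true then (1 : ZMod 2) else 0) = 1
      rw [if_pos h7]
    rw [h8] at h6
    exact absurd h6 (by decide))
  exact TH497.BF.G.ext' h5

theorem cover_of_flow (h : TH676.A.FlowOn TH497.BF.Ag s t ∅ ∅) : QuadrupleCover s t :=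
  TH497.BF.six h

/-- a 4-flow gives a quadruple cover -/
theorem cover_of_four (h : FourFlow s t) : QuadrupleCover s t := by
  obtain ⟨C, D, hC, hD, hu⟩ := h
  have hS : ∀ v, Even (deg s t (symmDiff C D) v) := by
    intro v
    have h1 : deg s t (symmDiff C D) v + 2 * deg s t (C ∩ D) v = deg s t C v + deg s t D v := by
      unfold deg
      have a1 := sum_inter_add_sum_sdiff C D (fun e => ((if s e = v then 1 else 0) +
        (if t e = v then 1 else 0) : ℕ))
      have a2 := sum_inter_add_sum_sdiff D C (fun e => ((if s e = v then 1 else 0) +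
        (if t e = v then 1 else 0) : ℕ))
      rw [inter_comm D C] at a2
      have a3 : symmDiff C D = (C \ D) ∪ (D \ C) := rfl
      rw [a3, sum_union (disjoint_sdiff_sdiff)]
      omega
    have h2 := (hC v).add (hD v)
    rw [← h1] at h2
    exact (Nat.even_add.mp h2).mpr (even_two_mul _)
  refine ⟨![C, C, D, D, symmDiff C D, symmDiff C D], ?_, ?_⟩
  · intro i v
    fin_cases i
    · exact hC v
    · exact hC v
    · exact hD v
    · exact hD v
    · exact hS v
    · exact hS v
  · intro e
    have he : e ∈ C ∪ D := by rw [hu]; exact mem_univ _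
    have key : ∀ a b c : Bool, (a || b) = true → c = (a ^^ b) →
        ((univ : Finset (Fin 6)).filter (fun i => (![a, a, b, b, c, c] : Fin 6 → Bool) i = true)).card
          = 4 := by decide
    have h1 := key (decide (e ∈ C)) (decide (e ∈ D)) (decide (e ∈ symmDiff C D))
      (by
        rcases mem_union.mp he with h | h
        · simp [h]
        · simp [h])
      (by
        by_cases h : e ∈ C <;> by_cases h' : e ∈ D <;> simp [mem_symmDiff, h, h'])
    refine (congrArg Finset.card ?_).trans h1
    ext i
    rw [mem_filter, mem_filter]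
    fin_cases i <;> simp

theorem mc_minor (s t : E → V) : TH676.A.MC (fun c d => IsMinor s t c d) where
  del := fun c d e h _ => by
    have h1 := IsMinor.delete c d e h
    have h2 : TH676.A.lp c d {e} = fun x => if x = e then c x else d x := by
      funext x
      unfold TH676.A.lp
      simp only [mem_singleton]
    rw [h2]
    exact h1
  con := fun c d e h _ => IsMinor.contract c d e h

theorem part_of {X Y S : Finset V} (h : Separation s t X Y S) : Q124.MSA.Part s t X Y S :=
  ⟨h.xy, h.xs, h.ys, h.all, fun e => ⟨fun h1 => h.sep e _ _ h1.1 h1.2 (Or.inl ⟨rfl, rfl⟩),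
    fun h1 => h.sep e _ _ h1.2 h1.1 (Or.inr ⟨rfl, rfl⟩)⟩⟩

/-- the tree in the notation of the file on carving width -/
def conv {V : Type} : Tr V → W420.BF.Tr V
  | .leaf v => .leaf v
  | .node l r => .node (conv l) (conv r)

theorem conv_set {V : Type} (T : Tr V) : (conv T).set = T.labels := by
  induction T with
  | leaf v => rfl
  | node l r h1 h2 => unfold conv W420.BF.Tr.set Tr.labels; rw [h1, h2]

theorem conv_nodup {V : Type} (T : Tr V) (h : T.Nodup) : (conv T).Nodup := by
  induction T with
  | leaf v => trivial
  | node l r h1 h2 =>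
    obtain ⟨a, b, c⟩ := h
    refine ⟨?_, h1 b, h2 c⟩
    rw [conv_set, conv_set]
    exact a

theorem conv_width (T : Tr V) (w : ℕ) (h : T.Width s t w) : (conv T).Width s t w := by
  classical
  have key : ∀ Z : Set V, (W420.BF.cut s t Z).card = {e | ¬ (s e ∈ Z ↔ t e ∈ Z)}.ncard := by
    intro Z
    rw [← Set.ncard_coe_finset]
    congr 1
    ext e
    simp [W420.BF.cut]
  induction T with
  | leaf v =>
    change (W420.BF.cut s t {v}).card ≤ w
    rw [key]
    exact h
  | node l r h1 h2 =>
    obtain ⟨a, b, c⟩ := h
    refine ⟨?_, h1 b, h2 c⟩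
    rw [conv_set, conv_set, key]
    exact a

theorem critical_of (hM : TH676.A.MinCx TH497.BF.Ag s t) : Critical s t where
  noCutEdge := br_iff.mp hM.br
  noCover := fun h => hM.nf (flow_of_cover h)
  noFlow := fun h => hM.nf (flow_of_cover (cover_of_four h))
  noPar := fun e e' x y hxy h h' => TH497.BF.par TH497.BF.factsBF hM hxy h h'
  noTri := fun x y z h1 h2 h3 => (TH497.BF.g5 TH497.BF.factsBF hM).tri x y z h1 h2 h3
  noQuad := fun x y z w hxz hyw h1 h2 h3 h4 =>
    (TH497.BF.g5 TH497.BF.factsBF hM).sq x y z w hxz hyw h1 h2 h3 h4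
  cut3 := fun Z x y hx hy nx ny =>
    TH676.A.cut3 TH497.BF.factsBF.alg hM hx hy (proper_iff.mp nx) (proper_iff.mp ny)
  cut4 := fun Z x x' y y' hx hx' hxx hy hy' hyy nx nx' ny ny' =>
    TH676.A.cut4 TH497.BF.factsBF.alg hM hx hx' hxx hy hy' hyy (proper_iff.mp nx)
      (proper_iff.mp nx') (proper_iff.mp ny) (proper_iff.mp ny')
  sep3 := fun X Y S hP x y hx hy nx ny => by
    by_contra hlt
    exact Q124.MSA.sep2 TH497.BF.factsBF hM (part_of hP) (by omega) hx hy (proper_iff.mp nx)
      (proper_iff.mp ny)
  sep4 := fun X Y S hP x x' y y' hx hx' hxx hy hy' hyy nx nx' ny ny' => by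
    by_contra hlt
    exact Q124.MSA.sep3 TH497.BF.factsBF hM (part_of hP) (by omega) hx hx' hxx hy hy' hyy
      (proper_iff.mp nx) (proper_iff.mp nx') (proper_iff.mp ny) (proper_iff.mp ny')
  treewidth := fun ι _ T bag hT => by
    by_contra hcon
    push Not at hcon
    have hTD : TH499.TF.HasTD 5 s t := TH499.TF.HasTD.of_tree hT.1 hT.2.2 hT.2.1
      (fun i => Nat.lt_succ_iff.mp (hcon i))
    exact hM.nf (TH497.BF.flow4 TH497.BF.factsBF hTD hM.br)
  carving := fun T hT hN hW => by
    classical
    have hthree : W420.BF.StmThree := Pool.Agent.W887.BF.three Pool.Agent.W119.BF.leaf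
      (W420.BF.join Pool.Agent.W461.BF.act)
    have hset : (conv T).set = Set.univ := by rw [conv_set, hT]
    obtain ⟨f, hf⟩ := Pool.Agent.W351.BF.red Pool.Agent.W461.BF.act Pool.Agent.W461.BF.trans
      hthree V E s t (conv T) (conv_nodup T hN) (conv_width T 5 hW)
      (fun e => by rw [hset]; exact ⟨Set.mem_univ _, Set.mem_univ _⟩) (fun Z => by
        have h1 := br_iff.mp hM.br (univ.filter (fun v => v ∈ Z))
        have h2 : cut s t (univ.filter (fun v => v ∈ Z)) = W420.BF.cut s t Z := by
          ext e
          simp [cut, W420.BF.cut]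
        rw [h2] at h1
        exact h1)
    rw [hset] at hf
    obtain ⟨C, c1, c2⟩ := W420.BF.fin_cover s t f hf
    refine hM.nf (flow_of_cover ⟨C, fun i v => ?_, fun e => ?_⟩)
    · have := c1 i v
      unfold deg
      rw [sum_add_distrib, ← card_filter, ← card_filter]
      convert this
    · convert c2 e
  cutwidth := fun f hf => by
    by_contra hcon
    obtain ⟨C, c1, c2⟩ := Pool.Agent.Y425.BF6.final V E s t (br_iff.mp hM.br)
      ⟨f, hf, fun n => Nat.lt_succ_iff.mp (not_le.mp fun h7 => hcon ⟨n, h7⟩)⟩
    refine hM.nf (flow_of_cover ⟨C, fun i v => ?_, fun e => c2 e⟩)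
    have := c1 i v
    unfold deg
    rw [sum_add_distrib, ← card_filter, ← card_filter]
    exact this

end

/-- Let `(s, t)` be a finite graph, with loops and parallel edges allowed, which has no cut edge. Then
it has a quadruple cover by six even subgraphs, or it has a minor with all the properties listed in
`Critical`. -/
theorem result (V E : Type) [Fintype V] [DecidableEq V] [Fintype E] [DecidableEq E] (s t : E → V)
    (hI : NoCutEdge s t) :
    QuadrupleCover s t ∨ ∃ c d : E → V, IsMinor s t c d ∧ Critical c d := by
  by_cases h : QuadrupleCover s t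
  · exact Or.inl h
  · right
    obtain ⟨c, d, h1, h2⟩ := TH676.A.exists_minCx TH497.BF.factsBF.alg.two (mc_minor s t) s t
      IsMinor.refl (br_iff.mpr hI) (fun h1 => h (cover_of_flow h1))
    exact ⟨c, d, h1, critical_of h2⟩

end Pool.Agent.Results.MP_40718a_co.CriticalMinors
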