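import Pool.Agent.Q253.M8.BF
import Pool.Agent.TH497.BF.Six
import Pool.Agent.TH455.TFA.Tw

set_option autoImplicit false

/-! # Six even subgraphs with every edge in exactly four of them: matching number at most eight

A finite graph, loops and parallel edges allowed, has vertex set `V` and edge set `E`; the ends of
the edge `e` are `src e` and `dst e`.

The class of the graphs in which no nine edges are pairwise disjoint is closed under deletion and
contraction of edges.  A minimal counterexample has girth at least five and degrees at least three,
no cut vertex and no nontrivial 3-edge-cut (starting library `TH497.BF`).  If at most sixteen vertices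
have odd degree, it has a nowhere-zero 4-flow or is the Petersen graph (starting library `TH362.TF`).
Otherwise it has at least 18 vertices and nine disjoint edges by the Tutte-Berge theorem and by
counting pairs of common neighbours. -/

namespace Pool.Agent.Results.MP_40718a_co.MatchingNumberEight

open Finset

/-- the simple graph in which two distinct vertices are adjacent if an edge in `F` joins them -/
def under {V E : Type} (src dst : E → V) (F : Set E) : SimpleGraph V where
  Adj x y := x ≠ y ∧ ∃ e ∈ F, (src e = x ∧ dst e = y) ∨ (src e = y ∧ dst e = x)
  symm := ⟨fun _ _ h => ⟨h.1.symm, h.2.imp fun _ he => ⟨he.1, he.2.symm⟩⟩⟩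
  loopless := ⟨fun _ h => h.1 rfl⟩

/-- the edge `e` is a cut edge: its ends are not connected by the other edges -/
def IsCutEdge {V E : Type} (src dst : E → V) (e : E) : Prop :=
  ¬ (under src dst {e' | e' ≠ e}).Reachable (src e) (dst e)

/-- no nine edges (not loops) are pairwise disjoint -/
def MatchingNumberLeEight {V E : Type} (src dst : E → V) : Prop :=
  ∀ M : Finset E, (∀ e ∈ M, src e ≠ dst e) →
    (∀ e ∈ M, ∀ f ∈ M, e ≠ f → src e ≠ src f ∧ src e ≠ dst f ∧ dst e ≠ src f ∧ dst e ≠ dst f) →
    M.card ≤ 8

/-- the degree of `v` in the set of edges `F`, where a loop counts twice -/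
def deg {V E : Type} [DecidableEq V] (src dst : E → V) (F : Finset E) (v : V) : ℕ :=
  ∑ e ∈ F, ((if src e = v then 1 else 0) + (if dst e = v then 1 else 0))

/-- **Theorem.** A graph without a cut edge in which no nine edges are pairwise disjoint has six even
subgraphs such that every edge is in exactly four of them. -/
theorem result (V E : Type) [Fintype V] [DecidableEq V] [Fintype E] [DecidableEq E]
    (src dst : E → V) (hI : ∀ e, ¬ IsCutEdge src dst e) (hM : MatchingNumberLeEight src dst) :
    ∃ C : Fin 6 → Finset E, (∀ i v, Even (deg src dst (C i) v)) ∧
      ∀ e, (univ.filter fun i => e ∈ C i).card = 4 := by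
  classical
  obtain ⟨C, h1, h2⟩ := TH497.BF.six
    (Q253.M8.BF.flow_of_mt TH497.BF.factsBF src dst (TH455.TFA.br_of hI) hM)
  exact ⟨C, h1, h2⟩

end Pool.Agent.Results.MP_40718a_co.MatchingNumberEight
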