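import Mathlib

set_option autoImplicit false
set_option linter.unusedSectionVars false

/-!
# A criterion for quadruple covers by six even subgraphs

A graph has vertex set `V`, edge set `E` and the ends `src e` and `dst e` of every edge `e`; loops
and parallel edges are allowed.
-/

namespace Pool.Agent.Results.MP_40718a_co.PairedCriterion

open Finset

variable {V E : Type} [Fintype V] [DecidableEq V] [Fintype E] [DecidableEq E]

/-- the set of edges `C` is an even subgraph: all degrees are even, where a loop counts twice -/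
def IsEven (src dst : E → V) (C : Finset E) : Prop :=
  ∀ v, Even (∑ e ∈ C, ((if src e = v then 1 else 0) + (if dst e = v then 1 else 0)))

/-- the edges with exactly one end in `U` -/
def leaving (src dst : E → V) (U : Finset V) : Finset E :=
  univ.filter (fun e => ¬ (src e ∈ U ↔ dst e ∈ U))

/-- six even subgraphs such that every edge is in exactly four of them -/
def HasSixCover (src dst : E → V) : Prop :=
  ∃ C : Fin 6 → Finset E, (∀ i, IsEven src dst (C i)) ∧
    ∀ e, (univ.filter fun i => e ∈ C i).card = 4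

/-- `u` and `v` are in the same component of the spanning subgraph with the edges in `X` -/
def SameComponent (src dst : E → V) (X : Finset E) (u v : V) : Prop :=
  Relation.EqvGen (fun a b => ∃ e ∈ X, src e = a ∧ dst e = b) u v

/-- indicator over the field with two elements -/
def ind (C : Finset E) (e : E) : ZMod 2 := if e ∈ C then 1 else 0

/-- the boundary map -/
def bdry (src dst : E → V) : (E → ZMod 2) →ₗ[ZMod 2] (V → ZMod 2) where
  toFun g v := ∑ e, ((if src e = v then g e else 0) + (if dst e = v then g e else 0))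
  map_add' g h := by
    ext v
    simp only [Pi.add_apply]
    rw [← sum_add_distrib]
    refine sum_congr rfl fun e _ => ?_
    split_ifs <;> ring
  map_smul' r g := by
    ext v
    simp only [Pi.smul_apply, smul_eq_mul, RingHom.id_apply]
    rw [mul_sum]
    refine sum_congr rfl fun e _ => ?_
    split_ifs <;> ring

lemma bdry_ind (src dst : E → V) (C : Finset E) (v : V) :
    bdry src dst (ind C) v =
      ((∑ e ∈ C, ((if src e = v then 1 else 0) + (if dst e = v then 1 else 0)) : ℕ) : ZMod 2) := by
  show ∑ e, ((if src e = v then ind C e else 0) + (if dst e = v then ind C e else 0)) = _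
  rw [Nat.cast_sum, ← sum_filter_add_sum_filter_not univ (fun e => e ∈ C)]
  have h1 : univ.filter (fun e => e ∈ C) = C := by ext; simp
  rw [h1]
  have h2 : ∑ e ∈ univ.filter (fun e => ¬ e ∈ C),
      ((if src e = v then ind C e else 0) + (if dst e = v then ind C e else 0)) = 0 := by
    refine sum_eq_zero fun e he => ?_
    have : ind C e = 0 := if_neg (mem_filter.1 he).2
    simp [this]
  rw [h2, add_zero]
  refine sum_congr rfl fun e he => ?_
  have : ind C e = 1 := if_pos he
  rw [this]
  push_cast
  rfl

lemma isEven_iff (src dst : E → V) (C : Finset E) :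
    IsEven src dst C ↔ bdry src dst (ind C) = 0 := by
  constructor
  · intro h
    ext v
    rw [bdry_ind]
    exact (ZMod.natCast_eq_zero_iff_even).2 (h v)
  · intro h v
    have := congrFun h v
    rw [bdry_ind] at this
    exact (ZMod.natCast_eq_zero_iff_even).1 this

lemma ind_symmDiff (A B : Finset E) : ind (symmDiff A B) = ind A + ind B := by
  ext e
  show (if e ∈ symmDiff A B then (1 : ZMod 2) else 0) =
    (if e ∈ A then 1 else 0) + (if e ∈ B then 1 else 0)
  by_cases hA : e ∈ A <;> by_cases hB : e ∈ B <;> simp [mem_symmDiff, hA, hB]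
  decide

lemma even_symm {src dst : E → V} {A B : Finset E} (hA : IsEven src dst A)
    (hB : IsEven src dst B) : IsEven src dst (symmDiff A B) := by
  rw [isEven_iff] at *
  rw [ind_symmDiff, map_add, hA, hB, add_zero]

/-- pairing of the boundary with a vertex function -/
lemma pair_bdry (src dst : E → V) (g : E → ZMod 2) (c : V → ZMod 2) :
    ∑ v, c v * bdry src dst g v = ∑ e, (c (src e) + c (dst e)) * g e := by
  show ∑ v, c v * ∑ e, ((if src e = v then g e else 0) + (if dst e = v then g e else 0)) = _
  simp only [mul_sum]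
  rw [sum_comm]
  refine sum_congr rfl fun e _ => ?_
  simp only [mul_add, mul_ite, mul_zero, sum_add_distrib, sum_ite_eq, mem_univ, if_true]
  ring

lemma card_leaving (src dst : E → V) (C : Finset E) (U : Finset V) :
    (((C ∩ leaving src dst U).card : ℕ) : ZMod 2) =
      ∑ e, ((if src e ∈ U then (1 : ZMod 2) else 0) + (if dst e ∈ U then 1 else 0)) * ind C e := by
  have h : C ∩ leaving src dst U = univ.filter (fun e => e ∈ C ∧ ¬ (src e ∈ U ↔ dst e ∈ U)) := by
    ext e; simp [leaving]
  rw [h, card_filter, Nat.cast_sum]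
  refine sum_congr rfl fun e _ => ?_
  unfold ind
  by_cases h1 : e ∈ C <;> by_cases h2 : src e ∈ U <;> by_cases h3 : dst e ∈ U <;>
    simp [h1, h2, h3]
  decide

/-- an even subgraph meets every cut in an even number of edges -/
lemma even_cut {src dst : E → V} {C : Finset E} (hC : IsEven src dst C) (U : Finset V) :
    Even (C ∩ leaving src dst U).card := by
  rw [← ZMod.natCast_eq_zero_iff_even, card_leaving,
    ← pair_bdry src dst (ind C) (fun v => if v ∈ U then 1 else 0), (isEven_iff src dst C).1 hC]
  simp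

/-- a set of edges can be completed within `X` to an even subgraph -/
lemma exists_join {src dst : E → V} {X A : Finset E}
    (h : ∀ U : Finset V, (∀ e ∈ X, e ∉ leaving src dst U) → Even (A ∩ leaving src dst U).card) :
    ∃ Y ⊆ X, IsEven src dst (symmDiff A Y) := by
  let S : Submodule (ZMod 2) (E → ZMod 2) :=
    { carrier := {g | ∀ e, e ∉ X → g e = 0}
      zero_mem' := fun e _ => rfl
      add_mem' := fun {g k} hg hk e he => by
        show g e + k e = 0
        rw [hg e he, hk e he, add_zero]
      smul_mem' := fun r g hg e he => by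
        show r * g e = 0
        rw [hg e he, mul_zero] }
  by_cases hmem : bdry src dst (ind A) ∈ S.map (bdry src dst)
  · obtain ⟨g, hg, hgA⟩ := hmem
    refine ⟨univ.filter (fun e => g e ≠ 0), fun e he => ?_, ?_⟩
    · by_contra hX
      exact (mem_filter.1 he).2 (hg e hX)
    · rw [isEven_iff, ind_symmDiff, map_add]
      have h1 : ind (univ.filter (fun e => g e ≠ 0)) = g := by
        ext e
        unfold ind
        have h2 : g e = 0 ∨ g e = 1 := by
          generalize g e = x
          revert x; decide
        rcases h2 with h2 | h2 <;> simp [h2]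
      rw [h1, hgA]
      ext v
      show _ + _ = (0 : ZMod 2)
      generalize (bdry src dst (ind A)) v = x
      revert x; decide
  · exfalso
    obtain ⟨f, hf1, hf2⟩ := Submodule.exists_dual_map_eq_bot_of_notMem hmem inferInstance
    set c : V → ZMod 2 := fun v => f (Pi.single v 1) with hc
    have hf : ∀ k : V → ZMod 2, f k = ∑ v, c v * k v := by
      intro k
      conv_lhs => rw [← univ_sum_single k]
      rw [map_sum]
      refine sum_congr rfl fun v _ => ?_
      have : (Pi.single v (k v) : V → ZMod 2) = k v • Pi.single v 1 := by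
        rw [← Pi.single_smul, smul_eq_mul, mul_one]
      rw [this, map_smul, smul_eq_mul, mul_comm]
    let U : Finset V := univ.filter (fun v => c v ≠ 0)
    have hU : ∀ v, (if v ∈ U then (1 : ZMod 2) else 0) = c v := by
      intro v
      have h2 : c v = 0 ∨ c v = 1 := by
        generalize c v = x
        revert x; decide
      rcases h2 with h2 | h2 <;> simp [U, h2]
    have hX : ∀ e ∈ X, e ∉ leaving src dst U := by
      intro e he hl
      have h3 : bdry src dst (ind {e}) ∈ S.map (bdry src dst) := by
        refine ⟨ind {e}, fun e' he' => ?_, rfl⟩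
        refine if_neg fun h4 => he' ?_
        rw [mem_singleton.1 h4]
        exact he
      have h4 : f (bdry src dst (ind {e})) = 0 := by
        have : f (bdry src dst (ind {e})) ∈ (S.map (bdry src dst)).map f :=
          Submodule.mem_map_of_mem h3
        rw [hf2] at this
        exact (Submodule.mem_bot _).1 this
      rw [hf, pair_bdry] at h4
      have h5 := card_leaving src dst {e} U
      simp only [hU] at h5
      rw [h4] at h5
      have h6 : ({e} : Finset E) ∩ leaving src dst U = {e} := by
        rw [inter_eq_left]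
        intro e' he'
        rw [mem_singleton.1 he']
        exact hl
      rw [h6, card_singleton] at h5
      exact absurd h5 (by decide)
    apply hf1
    rw [hf, pair_bdry]
    have h5 := card_leaving src dst A U
    simp only [hU] at h5
    rw [← h5]
    exact (ZMod.natCast_eq_zero_iff_even).2 (h U hX)

/-- the criterion -/
def Criterion (src dst : E → V) : Prop :=
  ∃ X A : Fin 3 → Finset E,
    (∀ k, IsEven src dst (X k)) ∧ symmDiff (X 0) (X 1) = X 2 ∧
    (∀ e, (∀ k, e ∉ X k) → ∃ k, e ∈ A k) ∧ (∀ k e, e ∈ A k → ∀ l, e ∉ X l ∧ (l ≠ k → e ∉ A l)) ∧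
    ∀ k, ∀ U : Finset V, (∀ e ∈ X k, e ∉ leaving src dst U) →
      Even ((univ.filter fun e => ∃ l, l ≠ k ∧ e ∈ A l) ∩ leaving src dst U).card

lemma third {X : Fin 3 → Finset E} (h : symmDiff (X 0) (X 1) = X 2) (e : E) :
    (e ∈ X 2 ↔ ¬ (e ∈ X 0 ↔ e ∈ X 1)) := by
  rw [← h, mem_symmDiff]
  tauto

/-- an edge outside `X k` but in another set is in both other sets -/
lemma others {X : Fin 3 → Finset E} (h : symmDiff (X 0) (X 1) = X 2) (k : Fin 3) (e : E)
    (hk : e ∉ X k) : ∀ l m, l ≠ k → m ≠ k → (e ∈ X l ↔ e ∈ X m) := by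
  have := third h e
  intro l m hl hm
  fin_cases k <;> fin_cases l <;> fin_cases m <;> simp at hl hm hk ⊢ <;> tauto

lemma even_part {src dst : E → V} {X : Fin 3 → Finset E} (hX : ∀ k, IsEven src dst (X k))
    (h : symmDiff (X 0) (X 1) = X 2) (k : Fin 3) (U : Finset V)
    (hU : ∀ e ∈ X k, e ∉ leaving src dst U) :
    Even ((univ.filter fun e => e ∉ X k ∧ ∃ l, e ∈ X l) ∩ leaving src dst U).card := by
  obtain ⟨m, hm⟩ : ∃ m : Fin 3, m ≠ k := by
    fin_cases k
    · exact ⟨1, by decide⟩
    · exact ⟨0, by decide⟩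
    · exact ⟨0, by decide⟩
  have h1 : (univ.filter fun e => e ∉ X k ∧ ∃ l, e ∈ X l) ∩ leaving src dst U =
      X m ∩ leaving src dst U := by
    ext e
    simp only [mem_inter, mem_filter, mem_univ, true_and]
    constructor
    · rintro ⟨⟨h2, l, h3⟩, h4⟩
      have hl : l ≠ k := by rintro rfl; exact h2 h3
      exact ⟨(others h k e h2 l m hl hm).1 h3, h4⟩
    · rintro ⟨h2, h3⟩
      have h4 : e ∉ X k := fun h4 => hU e h4 h3
      exact ⟨⟨h4, m, h2⟩, h3⟩
  rw [h1]
  exact even_cut (hX m) U

theorem cover_of_criterion {src dst : E → V} (h : Criterion src dst) : HasSixCover src dst := by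
  obtain ⟨X, A, hX, h3, hA, hd, hc⟩ := h
  -- the edges of `D k`
  let T : Fin 3 → Finset E := fun k =>
    (univ.filter fun e => e ∉ X k ∧ ∃ l, e ∈ X l) ∪ (univ.filter fun e => ∃ l, l ≠ k ∧ e ∈ A l)
  have hT : ∀ k, ∀ U : Finset V, (∀ e ∈ X k, e ∉ leaving src dst U) →
      Even (T k ∩ leaving src dst U).card := by
    intro k U hU
    have h1 : T k ∩ leaving src dst U =
        ((univ.filter fun e => e ∉ X k ∧ ∃ l, e ∈ X l) ∩ leaving src dst U) ∪
        ((univ.filter fun e => ∃ l, l ≠ k ∧ e ∈ A l) ∩ leaving src dst U) :=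
      union_inter_distrib_right _ _ _
    rw [h1, card_union_of_disjoint]
    · exact (even_part hX h3 k U hU).add (hc k U hU)
    · rw [disjoint_left]
      intro e he he'
      simp only [mem_inter, mem_filter, mem_univ, true_and] at he he'
      obtain ⟨⟨_, l, hl⟩, _⟩ := he
      obtain ⟨⟨m, _, hm⟩, _⟩ := he'
      exact (hd m e hm l).1 hl
  choose Y hYX hY using fun k => exists_join (hT k)
  let D : Fin 3 × Fin 2 → Finset E := fun p =>
    if p.2 = 0 then symmDiff (T p.1) (Y p.1) else symmDiff (symmDiff (T p.1) (Y p.1)) (X p.1)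
  let π : Fin 6 ≃ Fin 3 × Fin 2 := (finProdFinEquiv (m := 3) (n := 2)).symm
  refine ⟨fun i => D (π i), fun i => ?_, fun e => ?_⟩
  · by_cases hp : (π i).2 = 0
    · simp only [D, hp, if_true]
      exact hY _
    · simp only [D, hp, if_false]
      exact even_symm (hY _) (hX _)
  · have h1 : (univ.filter fun i : Fin 6 => e ∈ D (π i)).card =
        (univ.filter fun p : Fin 3 × Fin 2 => e ∈ D p).card := by
      apply card_bij' (fun i _ => π i) (fun p _ => π.symm p)
      · intro i hi; simpa using hi
      · intro p hp; simpa using hp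
      · intro i _; simp
      · intro p _; simp
    refine h1.trans ?_
    rw [card_filter, Fintype.sum_prod_type]
    have h2 : ∀ k, ∑ b : Fin 2, (if e ∈ D (k, b) then 1 else 0) =
        if e ∈ X k then 1 else if e ∈ T k then 2 else 0 := by
      intro k
      rw [Fin.sum_univ_two]
      by_cases hk : e ∈ X k
      · have hTk : e ∉ T k := by
          intro hTk
          simp only [T, mem_union, mem_filter, mem_univ, true_and] at hTk
          rcases hTk with hTk | ⟨l, _, hl⟩
          · exact hTk.1 hk
          · exact (hd l e hl k).1 hk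
        by_cases hy : e ∈ Y k <;> simp [D, mem_symmDiff, hk, hTk, hy]
      · have hy : e ∉ Y k := fun hy => hk (hYX k hy)
        by_cases hTk : e ∈ T k <;> simp [D, mem_symmDiff, hk, hTk, hy]
    simp only [h2]
    rw [Fin.sum_univ_three]
    have h5 := third h3 e
    by_cases hno : ∀ k, e ∉ X k
    · obtain ⟨k, hk⟩ := hA e hno
      have hTj : ∀ j, (e ∈ T j ↔ j ≠ k) := by
        intro j
        simp only [T, mem_union, mem_filter, mem_univ, true_and]
        constructor
        · rintro (⟨_, l, hl⟩ | ⟨l, hl, hl'⟩)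
          · exact absurd hl (hno l)
          · rintro rfl
            exact (hd j e hk l).2 hl hl'
        · intro hj
          exact Or.inr ⟨k, Ne.symm hj, hk⟩
      simp only [hno, if_false, hTj]
      fin_cases k <;> rfl
    · push Not at hno
      have hTj : ∀ j, e ∉ X j → e ∈ T j := by
        intro j hj
        simp only [T, mem_union, mem_filter, mem_univ, true_and]
        exact Or.inl ⟨hj, hno⟩
      obtain ⟨l, hl⟩ := hno
      by_cases h0 : e ∈ X 0 <;> by_cases h1 : e ∈ X 1
      · have h2 : e ∉ X 2 := by rw [h5]; simp [h0, h1]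
        simp [h0, h1, h2, hTj 2 h2]
      · have h2 : e ∈ X 2 := by rw [h5]; simp [h0, h1]
        simp [h0, h1, h2, hTj 1 h1]
      · have h2 : e ∈ X 2 := by rw [h5]; simp [h0, h1]
        simp [h0, h1, h2, hTj 0 h0]
      · exfalso
        have h2 : e ∉ X 2 := by rw [h5]; simp [h0, h1]
        fin_cases l
        · exact h0 hl
        · exact h1 hl
        · exact h2 hl

/-- membership of one edge in the six sets -/
lemma six_bits : ∀ a0 b0 a1 b1 a2 b2 : Bool,
    a0.toNat + b0.toNat + (a1.toNat + b1.toNat) + (a2.toNat + b2.toNat) = 4 →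
    ((xor a0 b0 = xor (xor a1 b1) (xor a2 b2)) ∧
    (xor a0 b0 = false → xor a1 b1 = false → xor a2 b2 = false →
      (a0 = false ∧ a1 = true ∧ a2 = true) ∨ (a0 = true ∧ a1 = false ∧ a2 = true) ∨
      (a0 = true ∧ a1 = true ∧ a2 = false)) ∧
    (a0 = false → b0 = false → xor a1 b1 = false ∧ xor a2 b2 = false ∧ a1 = true ∧ a2 = true) ∧
    (a1 = false → b1 = false → xor a0 b0 = false ∧ xor a2 b2 = false ∧ a0 = true ∧ a2 = true) ∧
    (a2 = false → b2 = false → xor a0 b0 = false ∧ xor a1 b1 = false ∧ a0 = true ∧ a1 = true)) := by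
  rintro (_ | _) (_ | _) (_ | _) (_ | _) (_ | _) (_ | _) h <;> revert h <;> simp

theorem criterion_of_cover {src dst : E → V} (h : HasSixCover src dst) : Criterion src dst := by
  obtain ⟨C, hC, h4⟩ := h
  let P : Fin 3 → Finset E := ![C 0, C 2, C 4]
  let Q : Fin 3 → Finset E := ![C 1, C 3, C 5]
  let X : Fin 3 → Finset E := fun k => symmDiff (P k) (Q k)
  let A : Fin 3 → Finset E := fun k => univ.filter fun e => e ∉ P k ∧ e ∉ Q k
  have hP : ∀ k, IsEven src dst (P k) := by
    intro k; fin_cases k
    · exact hC 0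
    · exact hC 2
    · exact hC 4
  have hQ : ∀ k, IsEven src dst (Q k) := by
    intro k; fin_cases k
    · exact hC 1
    · exact hC 3
    · exact hC 5
  have hbit : ∀ e, (decide (e ∈ P 0)).toNat + (decide (e ∈ Q 0)).toNat +
      ((decide (e ∈ P 1)).toNat + (decide (e ∈ Q 1)).toNat) +
      ((decide (e ∈ P 2)).toNat + (decide (e ∈ Q 2)).toNat) = 4 := by
    intro e
    rw [← h4 e, card_filter, Fin.sum_univ_six]
    have ht : ∀ (S : Finset E), (decide (e ∈ S)).toNat = if e ∈ S then 1 else 0 := by
      intro S; by_cases h : e ∈ S <;> simp [h]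
    simp only [ht]
    show _ = (if e ∈ P 0 then 1 else 0) + (if e ∈ Q 0 then 1 else 0) + (if e ∈ P 1 then 1 else 0) +
      (if e ∈ Q 1 then 1 else 0) + (if e ∈ P 2 then 1 else 0) + (if e ∈ Q 2 then 1 else 0)
    ring
  have hx : ∀ k e, e ∈ X k ↔ xor (decide (e ∈ P k)) (decide (e ∈ Q k)) = true := by
    intro k e
    by_cases h1 : e ∈ P k <;> by_cases h2 : e ∈ Q k <;> simp [X, mem_symmDiff, h1, h2]
  have hx' : ∀ k e, e ∉ X k ↔ xor (decide (e ∈ P k)) (decide (e ∈ Q k)) = false := by
    intro k e
    rw [hx]; simp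
  have ha : ∀ k e, e ∈ A k ↔ decide (e ∈ P k) = false ∧ decide (e ∈ Q k) = false := by
    intro k e
    simp [A]
  have h3 : symmDiff (X 0) (X 1) = X 2 := by
    ext e
    obtain ⟨h5, -⟩ := six_bits _ _ _ _ _ _ (hbit e)
    rw [mem_symmDiff, hx, hx, hx]
    revert h5
    generalize xor (decide (e ∈ P 0)) (decide (e ∈ Q 0)) = x
    generalize xor (decide (e ∈ P 1)) (decide (e ∈ Q 1)) = y
    generalize xor (decide (e ∈ P 2)) (decide (e ∈ Q 2)) = z
    revert x y z
    decide
  have hAP : ∀ k e, e ∈ A k → ∀ l, e ∉ X l ∧ (l ≠ k → e ∈ P l) := by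
    intro k e hk l
    rw [ha] at hk
    obtain ⟨-, -, h6, h7, h8⟩ := six_bits _ _ _ _ _ _ (hbit e)
    have hkk : e ∉ X k := by rw [hx', hk.1, hk.2]; rfl
    fin_cases k
    · obtain ⟨q1, q2, q3, q4⟩ := h6 hk.1 hk.2
      fin_cases l
      · exact ⟨hkk, fun h => absurd rfl h⟩
      · exact ⟨(hx' _ _).2 q1, fun _ => by simpa using q3⟩
      · exact ⟨(hx' _ _).2 q2, fun _ => by simpa using q4⟩
    · obtain ⟨q1, q2, q3, q4⟩ := h7 hk.1 hk.2
      fin_cases l
      · exact ⟨(hx' _ _).2 q1, fun _ => by simpa using q3⟩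
      · exact ⟨hkk, fun h => absurd rfl h⟩
      · exact ⟨(hx' _ _).2 q2, fun _ => by simpa using q4⟩
    · obtain ⟨q1, q2, q3, q4⟩ := h8 hk.1 hk.2
      fin_cases l
      · exact ⟨(hx' _ _).2 q1, fun _ => by simpa using q3⟩
      · exact ⟨(hx' _ _).2 q2, fun _ => by simpa using q4⟩
      · exact ⟨hkk, fun h => absurd rfl h⟩
  have hno : ∀ e, (∀ k, e ∉ X k) → ∃ k, e ∈ A k := by
    intro e he
    obtain ⟨-, h6, -⟩ := six_bits _ _ _ _ _ _ (hbit e)
    have e0 := (hx' 0 e).1 (he 0)
    have e1 := (hx' 1 e).1 (he 1)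
    have e2 := (hx' 2 e).1 (he 2)
    have key : ∀ k, decide (e ∈ P k) = false → e ∈ A k := by
      intro k hk
      rw [ha]
      refine ⟨hk, ?_⟩
      have := (hx' k e).1 (he k)
      rw [hk] at this
      simpa using this
    rcases h6 e0 e1 e2 with h | h | h
    · exact ⟨0, key 0 h.1⟩
    · exact ⟨1, key 1 h.2.1⟩
    · exact ⟨2, key 2 h.2.2⟩
  refine ⟨X, A, fun k => even_symm (hP k) (hQ k), h3, hno, fun k e hk l => ⟨(hAP k e hk l).1,
    fun hl hl' => ?_⟩, fun k U hU => ?_⟩
  · have h5 := (hAP k e hk l).2 hl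
    rw [ha] at hl'
    exact absurd h5 (by simpa using hl'.1)
  · -- `P k` without the part in the other even subgraphs
    have h5 := even_cut (hP k) U
    have h6 := even_part (fun k => even_symm (hP k) (hQ k)) h3 k U hU
    have h7 : P k ∩ leaving src dst U =
        ((univ.filter fun e => e ∉ X k ∧ ∃ l, e ∈ X l) ∩ leaving src dst U) ∪
        ((univ.filter fun e => ∃ l, l ≠ k ∧ e ∈ A l) ∩ leaving src dst U) := by
      ext e
      simp only [mem_union, mem_inter, mem_filter, mem_univ, true_and]
      constructor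
      · rintro ⟨q1, q2⟩
        have q3 : e ∉ X k := fun q3 => hU e q3 q2
        by_cases q4 : ∃ l, e ∈ X l
        · exact Or.inl ⟨⟨q3, q4⟩, q2⟩
        · push Not at q4
          obtain ⟨m, hm⟩ := hno e q4
          refine Or.inr ⟨⟨m, ?_, hm⟩, q2⟩
          rintro rfl
          rw [ha] at hm
          exact absurd q1 (by simpa using hm.1)
      · rintro (⟨⟨q1, l, q2⟩, q3⟩ | ⟨⟨l, q1, q2⟩, q3⟩)
        · refine ⟨?_, q3⟩
          by_contra q4
          have q5 : e ∈ A k := by
            rw [ha]
            have q6 := (hx' k e).1 q1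
            have q7 : decide (e ∈ P k) = false := by simpa using q4
            refine ⟨q7, ?_⟩
            rw [q7] at q6
            simpa using q6
          exact (hAP k e q5 l).1 q2
        · exact ⟨(hAP l e q2 k).2 (Ne.symm q1), q3⟩
    rw [h7, card_union_of_disjoint, Nat.even_add] at h5
    · exact h5.1 h6
    · rw [disjoint_left]
      intro e he he'
      simp only [mem_inter, mem_filter, mem_univ, true_and] at he he'
      obtain ⟨⟨_, l, hl⟩, _⟩ := he
      obtain ⟨⟨m, _, hm⟩, _⟩ := he'
      exact (hAP m e hm l).1 hl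

lemma same_side {src dst : E → V} {X : Finset E} {u v : V} (h : SameComponent src dst X u v)
    {U : Finset V} (hU : ∀ e ∈ X, e ∉ leaving src dst U) : u ∈ U ↔ v ∈ U := by
  induction h with
  | rel a b h =>
    obtain ⟨e, he, rfl, rfl⟩ := h
    have := hU e he
    simp only [leaving, mem_filter, mem_univ, true_and, not_not] at this
    exact this
  | refl a => rfl
  | symm a b _ ih => exact ih.symm
  | trans a b c _ _ ih1 ih2 => exact ih1.trans ih2

/-- edges with both ends in one component of two of the three even subgraphs -/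
theorem cover_of_components {src dst : E → V} (X : Fin 3 → Finset E)
    (hX : ∀ k, IsEven src dst (X k)) (h3 : symmDiff (X 0) (X 1) = X 2)
    (h : ∀ e, (∀ k, e ∉ X k) → ∃ k, ∀ l, l ≠ k → SameComponent src dst (X l) (src e) (dst e)) :
    HasSixCover src dst := by
  classical
  have h' : ∀ e, ∃ k : Fin 3, (∀ k, e ∉ X k) →
      ∀ l, l ≠ k → SameComponent src dst (X l) (src e) (dst e) := by
    intro e
    by_cases he : ∀ k, e ∉ X k
    · obtain ⟨k, hk⟩ := h e he
      exact ⟨k, fun _ => hk⟩
    · exact ⟨0, fun h => absurd h he⟩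
  choose κ hκ using h'
  refine cover_of_criterion ⟨X, fun k => univ.filter fun e => (∀ l, e ∉ X l) ∧ κ e = k, hX, h3,
    fun e he => ⟨κ e, by simpa using he⟩, fun k e he l => ?_, fun k U hU => ?_⟩
  · simp only [mem_filter, mem_univ, true_and] at he ⊢
    exact ⟨he.1 l, fun hl h => hl (h.2.symm.trans he.2)⟩
  · have h0 : (univ.filter fun e => ∃ l, l ≠ k ∧
        e ∈ univ.filter fun e => (∀ l, e ∉ X l) ∧ κ e = l) ∩ leaving src dst U = ∅ := by
      rw [eq_empty_iff_forall_notMem]
      intro e he
      simp only [mem_inter, mem_filter, mem_univ, true_and] at he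
      obtain ⟨⟨l, hl, h1, h2⟩, h4⟩ := he
      have h5 := same_side (hκ e h1 k (by rw [h2]; exact Ne.symm hl)) hU
      simp only [leaving, mem_filter, mem_univ, true_and] at h4
      exact h4 h5
    rw [h0]
    simp

/-- **Theorem.** Let `G` be a finite graph, loops and parallel edges allowed.

1. `G` has six even subgraphs with every edge in exactly four of them if and only if there are even
   subgraphs `X₀`, `X₁`, `X₂ = X₀ + X₁` and a partition `A₀, A₁, A₂` of the edges outside
   `X₀ ∪ X₁ ∪ X₂` such that for every `k` every set of vertices which no edge of `X_k` leaves (that is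
   every union of components of `X_k`) is left by an even number of edges of the sets `A_l`, `l ≠ k`.
2. In particular this holds if there are even subgraphs `X₀`, `X₁`, `X₂ = X₀ + X₁` such that every
   edge outside `X₀ ∪ X₁ ∪ X₂` has its ends in one component of `X_l` for at least two of the three
   indices `l`. -/
theorem result {V E : Type} [Fintype V] [DecidableEq V] [Fintype E] [DecidableEq E]
    (src dst : E → V) :
    (HasSixCover src dst ↔ ∃ X A : Fin 3 → Finset E,
      (∀ k, IsEven src dst (X k)) ∧ symmDiff (X 0) (X 1) = X 2 ∧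
      (∀ e, (∀ k, e ∉ X k) → ∃ k, e ∈ A k) ∧
      (∀ k e, e ∈ A k → ∀ l, e ∉ X l ∧ (l ≠ k → e ∉ A l)) ∧
      ∀ k, ∀ U : Finset V, (∀ e ∈ X k, e ∉ leaving src dst U) →
        Even ((univ.filter fun e => ∃ l, l ≠ k ∧ e ∈ A l) ∩ leaving src dst U).card) ∧
    ((∃ X : Fin 3 → Finset E, (∀ k, IsEven src dst (X k)) ∧ symmDiff (X 0) (X 1) = X 2 ∧
      ∀ e, (∀ k, e ∉ X k) → ∃ k, ∀ l, l ≠ k → SameComponent src dst (X l) (src e) (dst e)) →
      HasSixCover src dst) :=
  ⟨⟨criterion_of_cover, cover_of_criterion⟩, fun ⟨X, hX, h3, h⟩ => cover_of_components X hX h3 h⟩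

end Pool.Agent.Results.MP_40718a_co.PairedCriterion
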