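import Pool.Agent.Q253.M8.BFC
import Pool.Agent.TH497.BF.Six
import Pool.Agent.TH455.TFA.Tw

set_option autoImplicit false

/-! # Six even subgraphs with every edge in exactly four of them: vertex cover number at most nine

A finite graph, loops and parallel edges allowed, has vertex set `V` and edge set `E`; the ends of
the edge `e` are `src e` and `dst e`.

The class of the graphs with a vertex cover of at most nine vertices is closed under deletion and
contraction of edges.  A minimal counterexample has girth at least five and degrees at least three
(starting library `TH497.BF`).  Counting the pairs of neighbours in the cover shows that at most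
sixteen vertices have odd degree, and then there is a nowhere-zero 4-flow or the graph is the Petersen
graph (starting library `TH362.TF`), or that the edges which leave the cover form a cubic bipartite
graph and the degrees inside the cover are even; then a 3-edge-colouring gives a nowhere-zero
4-flow. -/

namespace Pool.Agent.Results.MP_40718a_co.VertexCoverNine

open Finset

/-- the simple graph in which two distinct vertices are adjacent if an edge in `F` joins them -/
def under {V E : Type} (src dst : E → V) (F : Set E) : SimpleGraph V where
  Adj x y := x ≠ y ∧ ∃ e ∈ F, (src e = x ∧ dst e = y) ∨ (src e = y ∧ dst e = x)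
  symm := ⟨fun _ _ h => ⟨h.1.symm, h.2.imp fun _ he => ⟨he.1, he.2.symm⟩⟩⟩
  loopless := ⟨fun _ h => h.1 rfl⟩

/-- the edge `e` is a cut edge: its ends are not connected by the other edges -/
def IsCutEdge {V E : Type} (src dst : E → V) (e : E) : Prop :=
  ¬ (under src dst {e' | e' ≠ e}).Reachable (src e) (dst e)

/-- some set of at most nine vertices meets all edges which are not loops -/
def VertexCoverLeNine {V E : Type} (src dst : E → V) : Prop :=
  ∃ X : Finset V, X.card ≤ 9 ∧ ∀ e, src e ≠ dst e → src e ∈ X ∨ dst e ∈ X

/-- the degree of `v` in the set of edges `F`, where a loop counts twice -/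
def deg {V E : Type} [DecidableEq V] (src dst : E → V) (F : Finset E) (v : V) : ℕ :=
  ∑ e ∈ F, ((if src e = v then 1 else 0) + (if dst e = v then 1 else 0))

/-- **Theorem.** A graph without a cut edge in which some nine vertices meet all edges other than loops
has six even subgraphs such that every edge is in exactly four of them. -/
theorem result (V E : Type) [Fintype V] [DecidableEq V] [Fintype E] [DecidableEq E]
    (src dst : E → V) (hI : ∀ e, ¬ IsCutEdge src dst e) (hM : VertexCoverLeNine src dst) :
    ∃ C : Fin 6 → Finset E, (∀ i v, Even (deg src dst (C i) v)) ∧
      ∀ e, (univ.filter fun i => e ∈ C i).card = 4 := by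
  classical
  obtain ⟨C, h1, h2⟩ := TH497.BF.six
    (Q253.M8.BF.flow_of_cov TH497.BF.factsBF src dst (TH455.TFA.br_of hI) hM)
  exact ⟨C, h1, h2⟩

end Pool.Agent.Results.MP_40718a_co.VertexCoverNine
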